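import Pool.Agent.Work.MP_ceabe6_pr.Main

/-!
The optimal `n`-dependence for the smallest singular value of non-real shifts of real Ginibre
matrices with an arbitrary deterministic real mean: there is an absolute constant `K` with
`P[σ_n(z - (A + G_n)) ≤ ε] ≤ K (1 + |z| + ‖A‖) n² ε² / |Im z|`
for all `n ≥ 1`, all real `n × n` matrices `A`, all `ε > 0` and all non-real `z`.
-/

namespace Pool.Agent.Results.MP_ceabe6_pr.LeastSingularValue

open Pool.Agent.Work.MP_ceabe6_pr

theorem result : ∃ K : ℝ, 0 < K ∧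
    ∀ (n : ℕ), 1 ≤ n → ∀ (A : Matrix (Fin n) (Fin n) ℝ) (ε : ℝ), 0 < ε →
      ∀ z : ℂ, z.im ≠ 0 →
        (ginibre n).real {G | leastSV (shifted z A G) ≤ ε} ≤
          K * (1 + ‖z‖ + opNorm A) * (n ^ 2 * ε ^ 2 / |z.im|) :=
  main_real

end Pool.Agent.Results.MP_ceabe6_pr.LeastSingularValue
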